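import Pool.Agent.Lib.MP_a57f33_nt.Pent.SlotBlock

/-!
# (ED) implies (PS) for every number of slots

`PS_of_ED` : if all solutions of (ED) in a class `C` of functions are functions of the shape,
then all solutions of (PS) with at least two slots (whose two-word restrictions are in `C`)
are functions of the shape.
-/

namespace Pent

variable {M : Type} [AddCommGroup M] {G : Type} [AddCommGroup G]

theorem PSsum_dsum : ∀ (l : List (Slot G)) (x : G → List (Slot G) → M) (s mm e : G)
    (κ : List (Slot G) → M),
    (∀ p ∈ lpairs l, ∀ w, x w p.1 = κ p.1 ∧ x w p.2 = κ p.2) →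
    PSsum x s mm e l = dsum (lpairs l) κ := by
  intro l
  induction l with
  | nil => intro x s mm e κ _; rfl
  | cons a l ih =>
    intro x s mm e κ hκ
    rw [lpairs, dsum_append, List.map_append, dsum_append]
    rw [PSsum]
    have h1 : (a.lowL.map fun p => x s (p.1 :: l) - x mm (p.2 :: l)).sum
        = dsum (a.lowL.map fun p => (p.1 :: l, p.2 :: l)) κ := by
      rw [dsum, List.map_map]
      congr 1
      apply List.map_congr_left
      intro p hp
      have hmem : (p.1 :: l, p.2 :: l) ∈ lpairs (a :: l) := by
        rw [lpairs, List.mem_append]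
        left
        exact List.mem_map_of_mem (List.mem_append_left _ hp)
      have h := hκ _ hmem
      simp only [Function.comp_apply]
      rw [(h s).1, (h mm).2]
    have h2 : (a.lowR.map fun p => x mm (p.1 :: l) - x e (p.2 :: l)).sum
        = dsum (a.lowR.map fun p => (p.1 :: l, p.2 :: l)) κ := by
      rw [dsum, List.map_map]
      congr 1
      apply List.map_congr_left
      intro p hp
      have hmem : (p.1 :: l, p.2 :: l) ∈ lpairs (a :: l) := by
        rw [lpairs, List.mem_append]
        left
        exact List.mem_map_of_mem (List.mem_append_right _ hp)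
      have h := hκ _ hmem
      simp only [Function.comp_apply]
      rw [(h mm).1, (h e).2]
    have h3 : PSsum (fun w t => x w (a :: t)) s mm e l
        = dsum ((lpairs l).map fun p => (a :: p.1, a :: p.2)) κ := by
      rw [dsum_map (lpairs l) (fun t => a :: t) κ]
      apply ih
      intro p hp w
      have hmem : (a :: p.1, a :: p.2) ∈ lpairs (a :: l) := by
        rw [lpairs, List.mem_append]
        right
        exact List.mem_map_of_mem hp
      exact hκ _ hmem w
    rw [h1, h2, h3]

/-- two slots and the rest, in the coordinates `(w; A, B; frozen part)` -/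
def Xf (x : G → List (Slot G) → M) (w : G) (A B : List G)
    (f : List G × (List G × List (Slot G))) : M :=
  x w (⟨A.dropLast, A.getLastD 0, f.1⟩ :: ⟨f.2.1, B.headD 0, B.tail⟩ :: f.2.2)

/-- the block of the frozen part -/
def frozen (G : Type) [AddCommGroup G] (k : ℕ) :
    Block (List G × (List G × List (Slot G))) :=
  (wordBlock G).prod ((wordBlock G).prod (listBlock G k))

theorem frozen_P (k : ℕ) : (frozen G k).P M :=
  Block.prod_P _ _ wordBlock_P (Block.prod_P _ _ wordBlock_P (listBlock_P k))

theorem Xf_eq (x : G → List (Slot G) → M) (k N : ℕ) (h : PSeq x (k + 2) N)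
    (A B R L : List G) (t : List (Slot G)) (hA : 2 ≤ A.length) (hB : 2 ≤ B.length)
    (hR : 1 ≤ R.length) (hL : 1 ≤ L.length) (ht : ∀ a ∈ t, a.ok) (htk : t.length = k)
    (hs : A.length - 1 + (B.length - 1) + (R.length + (L.length + tsize t)) = N + 1)
    (s mm e : G) (hs' : s = A.headD 0 + (L.headD 0 + sF t))
    (hmm : mm = A.getLastD 0 + (B.headD 0 + sM t))
    (he : e = R.getLastD 0 + (B.getLastD 0 + sE t)) :
    (if 3 ≤ A.length then
        Xf x s A.tail B (R, (L, t)) - Xf x mm A.dropLast B (R, (L, t)) else 0)
    + (if 2 ≤ R.length then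
        Xf x mm (A.dropLast ++ [R.headD 0]) B (R.tail, (L, t))
          - Xf x e A B (R.dropLast, (L, t)) else 0)
    + (if 2 ≤ L.length then
        Xf x s A B (R, (L.tail, t))
          - Xf x mm A (L.getLastD 0 :: B.tail) (R, (L.dropLast, t)) else 0)
    + (if 3 ≤ B.length then
        Xf x mm A B.tail (R, (L, t)) - Xf x e A B.dropLast (R, (L, t)) else 0)
    + PSsum (fun w t' => Xf x w A B (R, (L, t'))) s mm e t = 0 := by
  have h1 := h (⟨A.dropLast, A.getLastD 0, R⟩ :: ⟨L, B.headD 0, B.tail⟩ :: t) (by
    intro a ha
    rcases List.mem_cons.mp ha with rfl | ha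
    · constructor
      · simp only [List.length_dropLast]; omega
      · exact hR
    · rcases List.mem_cons.mp ha with rfl | ha
      · constructor
        · exact hL
        · simp only [List.length_tail]; omega
      · exact ht a ha) (by simp [htk]) (by
    have e1 : tsize (⟨A.dropLast, A.getLastD 0, R⟩ :: ⟨L, B.headD 0, B.tail⟩ :: t)
        = (A.length - 1 + R.length) + ((L.length + (B.length - 1)) + tsize t) := by
      simp [tsize, Slot.size]
    rw [e1]
    omega)
  have e1 : sF (⟨A.dropLast, A.getLastD 0, R⟩ :: ⟨L, B.headD 0, B.tail⟩ :: t) = s := by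
    rw [hs']
    simp only [sF, List.map_cons, List.sum_cons]
    rw [headD_dropLast A hA]
  have e2 : sM (⟨A.dropLast, A.getLastD 0, R⟩ :: ⟨L, B.headD 0, B.tail⟩ :: t) = mm := by
    rw [hmm]
    simp only [sM, List.map_cons, List.sum_cons]
  have e3 : sE (⟨A.dropLast, A.getLastD 0, R⟩ :: ⟨L, B.headD 0, B.tail⟩ :: t) = e := by
    rw [he]
    simp only [sE, List.map_cons, List.sum_cons]
    rw [getLastD_tail B hB]
  rw [e1, e2, e3] at h1
  rw [PSsum, PSsum] at h1
  have c1 : (Slot.lowL (⟨A.dropLast, A.getLastD 0, R⟩ : Slot G)) =
      if 3 ≤ A.length then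
        [(⟨A.dropLast.tail, A.getLastD 0, R⟩, ⟨A.dropLast.dropLast, A.dropLast.getLastD 0, R⟩)]
      else [] := by
    unfold Slot.lowL
    simp only [List.length_dropLast]
    by_cases hh : 3 ≤ A.length
    · rw [if_pos hh, if_pos (by omega)]
    · rw [if_neg hh, if_neg (by omega)]
  have c2 : (Slot.lowR (⟨L, B.headD 0, B.tail⟩ : Slot G)) =
      if 3 ≤ B.length then
        [(⟨L, B.tail.headD 0, B.tail.tail⟩, ⟨L, B.headD 0, B.tail.dropLast⟩)]
      else [] := by
    unfold Slot.lowR
    simp only [List.length_tail]
    by_cases hh : 3 ≤ B.length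
    · rw [if_pos hh, if_pos (by omega)]
    · rw [if_neg hh, if_neg (by omega)]
  rw [c1, c2] at h1
  unfold Slot.lowR Slot.lowL at h1
  simp only at h1
  have d1 : (if 3 ≤ A.length then
        Xf x s A.tail B (R, (L, t)) - Xf x mm A.dropLast B (R, (L, t)) else 0)
      = ((if 3 ≤ A.length then
        [((⟨A.dropLast.tail, A.getLastD 0, R⟩ : Slot G),
          (⟨A.dropLast.dropLast, A.dropLast.getLastD 0, R⟩ : Slot G))]
      else []).map fun p => x s (p.1 :: ⟨L, B.headD 0, B.tail⟩ :: t)
        - x mm (p.2 :: ⟨L, B.headD 0, B.tail⟩ :: t)).sum := by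
    by_cases hh : 3 ≤ A.length
    · rw [if_pos hh, if_pos hh]
      simp only [List.map_cons, List.map_nil, List.sum_cons, List.sum_nil, add_zero, Xf]
      rw [tail_dropLast', getLastD_tail A hA]
    · rw [if_neg hh, if_neg hh]
      rfl
  have d2 : (if 2 ≤ R.length then
        Xf x mm (A.dropLast ++ [R.headD 0]) B (R.tail, (L, t))
          - Xf x e A B (R.dropLast, (L, t)) else 0)
      = ((if 2 ≤ R.length then
        [((⟨A.dropLast, R.headD 0, R.tail⟩ : Slot G),
          (⟨A.dropLast, A.getLastD 0, R.dropLast⟩ : Slot G))]
      else []).map fun p => x mm (p.1 :: ⟨L, B.headD 0, B.tail⟩ :: t)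
        - x e (p.2 :: ⟨L, B.headD 0, B.tail⟩ :: t)).sum := by
    by_cases hh : 2 ≤ R.length
    · rw [if_pos hh, if_pos hh]
      simp only [List.map_cons, List.map_nil, List.sum_cons, List.sum_nil, add_zero, Xf]
      rw [List.dropLast_concat, List.getLastD_concat]
    · rw [if_neg hh, if_neg hh]
      rfl
  have d3 : (if 2 ≤ L.length then
        Xf x s A B (R, (L.tail, t))
          - Xf x mm A (L.getLastD 0 :: B.tail) (R, (L.dropLast, t)) else 0)
      = ((if 2 ≤ L.length then
        [((⟨L.tail, B.headD 0, B.tail⟩ : Slot G),
          (⟨L.dropLast, L.getLastD 0, B.tail⟩ : Slot G))]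
      else []).map fun p => x s (⟨A.dropLast, A.getLastD 0, R⟩ :: p.1 :: t)
        - x mm (⟨A.dropLast, A.getLastD 0, R⟩ :: p.2 :: t)).sum := by
    by_cases hh : 2 ≤ L.length
    · rw [if_pos hh, if_pos hh]
      simp only [List.map_cons, List.map_nil, List.sum_cons, List.sum_nil, add_zero, Xf,
        List.headD_cons, List.tail_cons]
    · rw [if_neg hh, if_neg hh]
      rfl
  have d4 : (if 3 ≤ B.length then
        Xf x mm A B.tail (R, (L, t)) - Xf x e A B.dropLast (R, (L, t)) else 0)
      = ((if 3 ≤ B.length then
        [((⟨L, B.tail.headD 0, B.tail.tail⟩ : Slot G),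
          (⟨L, B.headD 0, B.tail.dropLast⟩ : Slot G))]
      else []).map fun p => x mm (⟨A.dropLast, A.getLastD 0, R⟩ :: p.1 :: t)
        - x e (⟨A.dropLast, A.getLastD 0, R⟩ :: p.2 :: t)).sum := by
    by_cases hh : 3 ≤ B.length
    · rw [if_pos hh, if_pos hh]
      simp only [List.map_cons, List.map_nil, List.sum_cons, List.sum_nil, add_zero, Xf]
      rw [← tail_dropLast' B, headD_dropLast B hB]
    · rw [if_neg hh, if_neg hh]
      rfl
  rw [d1, d2, d3, d4]
  have d5 : PSsum (fun w t' => Xf x w A B (R, (L, t'))) s mm e t
      = PSsum (fun w t' => (fun w t'' => x w (⟨A.dropLast, A.getLastD 0, R⟩ :: t'')) w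
          (⟨L, B.headD 0, B.tail⟩ :: t')) s mm e t := rfl
  rw [d5, ← h1]
  simp only
  abel

theorem map_headD (A : List G) (b : G) (h : 1 ≤ A.length) :
    (A.map (· + b)).headD 0 = A.headD 0 + b := by
  cases A with
  | nil => simp at h
  | cons a t => rfl

theorem map_getLastD (A : List G) (b : G) (h : 1 ≤ A.length) :
    (A.map (· + b)).getLastD 0 = A.getLastD 0 + b := by
  conv_lhs => rw [← dropLast_getLastD A h]
  rw [List.map_append]
  simp

theorem map_sub_add (A : List G) (b : G) : (A.map (· + -b)).map (· + b) = A := by
  rw [List.map_map]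
  have : ((fun x : G => x + b) ∘ fun x => x + -b) = id := by
    funext x
    simp
  rw [this, List.map_id]

/-- (ED) for a class of functions implies (PS) for at least two slots. -/
theorem PS_of_ED (C : (G → List G → List G → M) → Prop)
    (hED : ∀ (n : ℕ) (y : G → List G → List G → M), C y → EDeq y n → EDconst y n)
    (x : G → List (Slot G) → M)
    (hx : ∀ (a b c : G) (R L : List G) (t : List (Slot G)),
      C (fun w A B => x (w + a)
        (⟨A.dropLast.map (· + b), A.getLastD 0 + b, R⟩
          :: ⟨L, B.headD 0 + c, B.tail.map (· + c)⟩ :: t)))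
    (k N : ℕ) (h : PSeq x (k + 2) N) : PSconst x (k + 2) N := by
  have key : ∀ c : ℕ, ∀ (w w' : G) (A A' B B' : List G)
      (f f' : List G × (List G × List (Slot G))),
      2 ≤ A.length → 2 ≤ B.length → A.length = A'.length → B.length = B'.length →
      (frozen G k).ok f → (frozen G k).size f = c → (frozen G k).sim f f' →
      A.length - 1 + (B.length - 1) + c = N → Xf x w A B f = Xf x w' A' B' f' := by
    intro c
    induction c using Nat.strong_induction_on with
    | _ c ih =>
    -- (i) independence of the active variables
    have hact : ∀ (w w' : G) (A A' B B' : List G) (f : List G × (List G × List (Slot G))),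
        2 ≤ A.length → 2 ≤ B.length → A.length = A'.length → B.length = B'.length →
        (frozen G k).ok f → (frozen G k).size f = c →
        A.length - 1 + (B.length - 1) + c = N → Xf x w A B f = Xf x w' A' B' f := by
      rintro w w' A A' B B' ⟨R, L, t⟩ hA hB hAA hBB hok hc hN
      have hR : 1 ≤ R.length := hok.1
      have hL : 1 ≤ L.length := hok.2.1
      have ht : (∀ a ∈ t, a.ok) ∧ t.length = k := hok.2.2
      have hcs : R.length + (L.length + tsize t) = c := hc
      obtain ⟨S, hS⟩ : ∃ S, S = L.headD 0 + sF t := ⟨_, rfl⟩
      obtain ⟨Mm, hMm⟩ : ∃ Mm, Mm = sM t := ⟨_, rfl⟩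
      obtain ⟨E, hE⟩ : ∃ E, E = R.getLastD 0 + sE t := ⟨_, rfl⟩
      have hy := hED (N + 2 - c) _ (hx (S + E - Mm) (E - Mm) (S - Mm) R L t)
      have hyE : ∀ (w : G) (A B : List G), 1 ≤ A.length → 1 ≤ B.length →
          x (w + (S + E - Mm))
            (⟨A.dropLast.map (· + (E - Mm)), A.getLastD 0 + (E - Mm), R⟩
              :: ⟨L, B.headD 0 + (S - Mm), B.tail.map (· + (S - Mm))⟩ :: t)
          = Xf x (w + (S + E - Mm)) (A.map (· + (E - Mm))) (B.map (· + (S - Mm))) (R, (L, t)) := by
        intro w A B hA hB
        simp only [Xf]
        rw [map_getLastD A _ hA, map_headD B _ hB, List.map_dropLast, List.map_tail]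
      have hcon := hy (by
        intro A B hA hB hAB
        have hn : A.length - 1 + (B.length - 1) + (R.length + (L.length + tsize t)) = N + 1 := by
          omega
        have q := Xf_eq x k N h (A.map (· + (E - Mm))) (B.map (· + (S - Mm))) R L t
          (by simpa using hA) (by simpa using hB) hR hL ht.1 ht.2 (by simpa using hn)
          (A.headD 0 + (S + E - Mm)) (A.getLastD 0 + B.headD 0 + (S + E - Mm))
          (B.getLastD 0 + (S + E - Mm))
          (by rw [map_headD A _ (by omega), hS]; abel)
          (by rw [map_getLastD A _ (by omega), map_headD B _ (by omega), hMm]; abel)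
          (by rw [map_getLastD B _ (by omega), hE]; abel)
        -- the lowered frozen terms vanish
        have v1 : (if 2 ≤ R.length then
            Xf x (A.getLastD 0 + B.headD 0 + (S + E - Mm))
              ((A.map (· + (E - Mm))).dropLast ++ [R.headD 0]) (B.map (· + (S - Mm)))
              (R.tail, (L, t))
            - Xf x (B.getLastD 0 + (S + E - Mm)) (A.map (· + (E - Mm))) (B.map (· + (S - Mm)))
              (R.dropLast, (L, t)) else 0) = 0 := by
          split_ifs with hh
          · rw [sub_eq_zero]
            refine ih (c - 1) (by omega) _ _ _ _ _ _ _ _ ?_ ?_ ?_ ?_ ?_ ?_ ?_ ?_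
            · simp; omega
            · simp; omega
            · simp; omega
            · rfl
            · refine ⟨?_, hL, ht⟩
              show 1 ≤ R.tail.length
              simp; omega
            · show R.tail.length + (L.length + tsize t) = c - 1
              simp; omega
            · refine ⟨?_, rfl, (listBlock G k).sim_refl t⟩
              show R.tail.length = R.dropLast.length
              simp
            · simp; omega
          · rfl
        have v2 : (if 2 ≤ L.length then
            Xf x (A.headD 0 + (S + E - Mm)) (A.map (· + (E - Mm))) (B.map (· + (S - Mm)))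
              (R, (L.tail, t))
            - Xf x (A.getLastD 0 + B.headD 0 + (S + E - Mm)) (A.map (· + (E - Mm)))
              (L.getLastD 0 :: (B.map (· + (S - Mm))).tail)
              (R, (L.dropLast, t)) else 0) = 0 := by
          split_ifs with hh
          · rw [sub_eq_zero]
            refine ih (c - 1) (by omega) _ _ _ _ _ _ _ _ ?_ ?_ ?_ ?_ ?_ ?_ ?_ ?_
            · simp; omega
            · simp; omega
            · rfl
            · simp; omega
            · refine ⟨hR, ?_, ht⟩
              show 1 ≤ L.tail.length
              simp; omega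
            · show R.length + (L.tail.length + tsize t) = c - 1
              simp; omega
            · refine ⟨rfl, ?_, (listBlock G k).sim_refl t⟩
              show L.tail.length = L.dropLast.length
              simp
            · simp; omega
          · rfl
        have v3 : PSsum (fun w t' => Xf x w (A.map (· + (E - Mm))) (B.map (· + (S - Mm)))
              (R, (L, t'))) (A.headD 0 + (S + E - Mm))
              (A.getLastD 0 + B.headD 0 + (S + E - Mm)) (B.getLastD 0 + (S + E - Mm)) t = 0 := by
          have hone : ∀ p ∈ lpairs t, ∀ w w' : G,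
              Xf x w (A.map (· + (E - Mm))) (B.map (· + (S - Mm))) (R, (L, p.1))
              = Xf x w' (A.map (· + (E - Mm))) (B.map (· + (S - Mm))) (R, (L, p.1)) ∧
              Xf x w (A.map (· + (E - Mm))) (B.map (· + (S - Mm))) (R, (L, p.1))
              = Xf x w' (A.map (· + (E - Mm))) (B.map (· + (S - Mm))) (R, (L, p.2)) := by
            intro p hp w w'
            have q1 := lpairs_size t p hp
            have q2 := (listBlock G k).pairs_ok t ht p hp
            have q3 := lpairs_sim t p hp
            constructor
            · refine ih (c - 1) (by omega) _ _ _ _ _ _ _ _ ?_ ?_ rfl rfl ?_ ?_ ?_ ?_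
              · simp; omega
              · simp; omega
              · exact ⟨hR, hL, q2⟩
              · show R.length + (L.length + tsize p.1) = c - 1
                omega
              · exact (frozen G k).sim_refl _
              · simp; omega
            · refine ih (c - 1) (by omega) _ _ _ _ _ _ _ _ ?_ ?_ rfl rfl ?_ ?_ ?_ ?_
              · simp; omega
              · simp; omega
              · exact ⟨hR, hL, q2⟩
              · show R.length + (L.length + tsize p.1) = c - 1
                omega
              · exact ⟨rfl, rfl, q3⟩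
              · simp; omega
          rw [PSsum_dsum t _ _ _ _
            (fun t' => Xf x 0 (A.map (· + (E - Mm))) (B.map (· + (S - Mm))) (R, (L, t')))]
          · apply dsum_eq_zero
            intro p hp
            exact (hone p hp 0 0).2
          · intro p hp w
            refine ⟨(hone p hp w 0).1, ?_⟩
            rw [← (hone p hp w w).2, ← (hone p hp w 0).2]
        rw [v1, v2, v3] at q
        simp only [add_zero] at q
        unfold EDsum
        beta_reduce
        have e1 : (if 3 ≤ A.length then
            x (A.headD 0 + (S + E - Mm))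
              (⟨A.tail.dropLast.map (· + (E - Mm)), A.tail.getLastD 0 + (E - Mm), R⟩
              :: ⟨L, B.headD 0 + (S - Mm), B.tail.map (· + (S - Mm))⟩ :: t)
            - x (A.getLastD 0 + B.headD 0 + (S + E - Mm))
              (⟨A.dropLast.dropLast.map (· + (E - Mm)), A.dropLast.getLastD 0 + (E - Mm), R⟩
              :: ⟨L, B.headD 0 + (S - Mm), B.tail.map (· + (S - Mm))⟩ :: t) else 0)
            = (if 3 ≤ (A.map (· + (E - Mm))).length then
              Xf x (A.headD 0 + (S + E - Mm)) (A.map (· + (E - Mm))).tail
                (B.map (· + (S - Mm))) (R, (L, t))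
              - Xf x (A.getLastD 0 + B.headD 0 + (S + E - Mm)) (A.map (· + (E - Mm))).dropLast
                (B.map (· + (S - Mm))) (R, (L, t)) else 0) := by
          by_cases hh : 3 ≤ A.length
          · rw [if_pos hh, if_pos (by simpa using hh)]
            rw [hyE _ _ _ (by simp; omega) (by omega), hyE _ _ _ (by simp; omega) (by omega)]
            rw [List.map_tail, List.map_dropLast]
          · rw [if_neg hh, if_neg (by simpa using hh)]
        have e2 : (if 3 ≤ B.length then
            x (A.getLastD 0 + B.headD 0 + (S + E - Mm))
              (⟨A.dropLast.map (· + (E - Mm)), A.getLastD 0 + (E - Mm), R⟩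
              :: ⟨L, B.tail.headD 0 + (S - Mm), B.tail.tail.map (· + (S - Mm))⟩ :: t)
            - x (B.getLastD 0 + (S + E - Mm))
              (⟨A.dropLast.map (· + (E - Mm)), A.getLastD 0 + (E - Mm), R⟩
              :: ⟨L, B.dropLast.headD 0 + (S - Mm), B.dropLast.tail.map (· + (S - Mm))⟩ :: t)
              else 0)
            = (if 3 ≤ (B.map (· + (S - Mm))).length then
              Xf x (A.getLastD 0 + B.headD 0 + (S + E - Mm)) (A.map (· + (E - Mm)))
                (B.map (· + (S - Mm))).tail (R, (L, t))
              - Xf x (B.getLastD 0 + (S + E - Mm)) (A.map (· + (E - Mm)))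
                (B.map (· + (S - Mm))).dropLast (R, (L, t)) else 0) := by
          by_cases hh : 3 ≤ B.length
          · rw [if_pos hh, if_pos (by simpa using hh)]
            rw [hyE _ _ _ (by omega) (by simp; omega), hyE _ _ _ (by omega) (by simp; omega)]
            rw [List.map_tail, List.map_dropLast]
          · rw [if_neg hh, if_neg (by simpa using hh)]
        rw [e1, e2]
        exact q)
      have r := hcon (w - (S + E - Mm)) (w' - (S + E - Mm)) (A.map (· + -(E - Mm)))
        (A'.map (· + -(E - Mm))) (B.map (· + -(S - Mm))) (B'.map (· + -(S - Mm)))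
        (by simpa using hA) (by simpa using hB) (by simpa using hAA) (by simpa using hBB)
        (by simp; omega)
      beta_reduce at r
      rw [hyE _ _ _ (by simp; omega) (by simp; omega),
        hyE _ _ _ (by simp; omega) (by simp; omega)] at r
      rw [map_sub_add, map_sub_add, map_sub_add, map_sub_add, sub_add_cancel,
        sub_add_cancel] at r
      exact r
    -- (ii) independence of the frozen variables
    intro w w' A A' B B' f f' hA hB hAA hBB hok hc hsim hN
    have hok' : (frozen G k).ok f' := (frozen G k).ok_sim _ _ hsim hok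
    have hc' : (frozen G k).size f' = c := by
      rw [← (frozen G k).size_sim _ _ hsim]
      exact hc
    have e1 : Xf x w A B f = Xf x 0 (List.replicate A.length 0) (List.replicate B.length 0) f :=
      hact _ _ _ _ _ _ _ hA hB (by simp) (by simp) hok hc hN
    have e2 : Xf x w' A' B' f'
        = Xf x 0 (List.replicate A.length 0) (List.replicate B.length 0) f' :=
      hact _ _ _ _ _ _ _ (by omega) (by omega) (by simp [hAA]) (by simp [hBB]) hok' hc'
        (by omega)
    rw [e1, e2]
    refine frozen_P (M := M) k c
      (fun f => Xf x 0 (List.replicate A.length 0) (List.replicate B.length 0) f) ?_ f f' hok hc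
      hsim
    rintro ⟨R, L, t⟩ hok1 hsz
    have hR : 1 ≤ R.length := hok1.1
    have hL : 1 ≤ L.length := hok1.2.1
    have ht : (∀ a ∈ t, a.ok) ∧ t.length = k := hok1.2.2
    have hcs : R.length + (L.length + tsize t) = c + 1 := hsz
    obtain ⟨S, hS⟩ : ∃ S, S = L.headD 0 + sF t := ⟨_, rfl⟩
    obtain ⟨Mm, hMm⟩ : ∃ Mm, Mm = sM t := ⟨_, rfl⟩
    obtain ⟨E, hE⟩ : ∃ E, E = R.getLastD 0 + sE t := ⟨_, rfl⟩
    obtain ⟨α, hα⟩ : ∃ α, A.length = α + 2 := ⟨A.length - 2, by omega⟩
    obtain ⟨β, hβ⟩ : ∃ β, B.length = β + 2 := ⟨B.length - 2, by omega⟩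
    have hlastrep : ∀ (n : ℕ) (b : G), (List.replicate (n + 1) b).getLastD 0 = b := by
      intro n b
      rw [List.replicate_succ', List.getLastD_concat]
    have q := Xf_eq x k N h (List.replicate (α + 2) (E - Mm)) (List.replicate (β + 2) (S - Mm))
      R L t (by simp) (by simp) hR hL ht.1 ht.2 (by simp; omega)
      (S + E - Mm) (S + E - Mm) (S - Mm + E)
      (by simp only [List.replicate_succ, List.headD_cons]; rw [hS]; abel)
      (by
        rw [hlastrep]
        simp only [List.replicate_succ, List.headD_cons]
        rw [hMm]
        abel)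
      (by rw [hlastrep, hE]; abel)
    have u1 : (List.replicate (α + 2) (E - Mm)).tail = (List.replicate (α + 2) (E - Mm)).dropLast := by
      simp
    have u2 : (List.replicate (β + 2) (S - Mm)).tail = (List.replicate (β + 2) (S - Mm)).dropLast := by
      simp
    -- values on the level c
    have hval : ∀ (w : G) (A1 B1 : List G) (f : List G × (List G × List (Slot G))),
        A1.length = α + 2 → B1.length = β + 2 → (frozen G k).ok f → (frozen G k).size f = c →
        Xf x w A1 B1 f
          = Xf x 0 (List.replicate A.length 0) (List.replicate B.length 0) f := by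
      intro w A1 B1 f h1 h2 h3 h4
      exact hact _ _ _ _ _ _ _ (by omega) (by omega) (by simp; omega) (by simp; omega) h3 h4
        (by omega)
    rw [u1] at q
    have v0 : (if 3 ≤ (List.replicate (β + 2) (S - Mm)).length then
        Xf x (S + E - Mm) (List.replicate (α + 2) (E - Mm)) (List.replicate (β + 2) (S - Mm)).tail
            (R, (L, t))
          - Xf x (S - Mm + E) (List.replicate (α + 2) (E - Mm))
            (List.replicate (β + 2) (S - Mm)).dropLast (R, (L, t)) else 0) = 0 := by
      rw [u2]
      have : S + E - Mm = S - Mm + E := by abel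
      rw [this]
      simp
    rw [v0] at q
    simp only [sub_self, ite_self, zero_add, add_zero] at q
    have v3 : PSsum (fun w t' => Xf x w (List.replicate (α + 2) (E - Mm))
          (List.replicate (β + 2) (S - Mm)) (R, (L, t'))) (S + E - Mm) (S + E - Mm)
          (S - Mm + E) t
        = dsum (lpairs t) (fun t' => Xf x 0 (List.replicate A.length 0)
          (List.replicate B.length 0) (R, (L, t'))) := by
      apply PSsum_dsum
      intro p hp w
      have q1 := lpairs_size t p hp
      have q2 := (listBlock G k).pairs_ok t ht p hp
      have q3 := lpairs_sim t p hp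
      have q4 : (listBlock G k).ok p.2 := (listBlock G k).ok_sim _ _ q3 q2
      have q5 : tsize p.1 = tsize p.2 := tsize_sim _ _ q3
      constructor
      · apply hval _ _ _ _ (by simp) (by simp)
        · exact ⟨hR, hL, q2⟩
        · show R.length + (L.length + tsize p.1) = c
          omega
      · apply hval _ _ _ _ (by simp) (by simp)
        · exact ⟨hR, hL, q4⟩
        · show R.length + (L.length + tsize p.2) = c
          omega
    rw [v3] at q
    have e0 : (frozen G k).pairs (R, (L, t)) =
        ((wordBlock G).pairs R).map (fun p => ((p.1, (L, t)), (p.2, (L, t))))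
        ++ ((((wordBlock G).pairs L).map (fun p => ((p.1, t), (p.2, t)))
          ++ (lpairs t).map (fun p => ((L, p.1), (L, p.2)))).map
            (fun p => ((R, p.1), (R, p.2)))) := rfl
    rw [e0, dsum_append]
    rw [dsum_map ((wordBlock G).pairs R) (fun s => (s, (L, t)))
      (fun f : List G × (List G × List (Slot G)) =>
        Xf x 0 (List.replicate A.length 0) (List.replicate B.length 0) f)]
    rw [dsum_map _ (fun s => (R, s))
      (fun f : List G × (List G × List (Slot G)) =>
        Xf x 0 (List.replicate A.length 0) (List.replicate B.length 0) f)]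
    rw [dsum_append]
    rw [dsum_map ((wordBlock G).pairs L) (fun s => (s, t))
      (fun f : List G × List (Slot G) =>
        Xf x 0 (List.replicate A.length 0) (List.replicate B.length 0) (R, f))]
    rw [dsum_map (lpairs t) (fun s => (L, s))
      (fun f : List G × List (Slot G) =>
        Xf x 0 (List.replicate A.length 0) (List.replicate B.length 0) (R, f))]
    have w1 : dsum ((wordBlock G).pairs R) (fun s =>
          Xf x 0 (List.replicate A.length 0) (List.replicate B.length 0) (s, (L, t)))
        = (if 2 ≤ R.length then
        Xf x (S + E - Mm) ((List.replicate (α + 2) (E - Mm)).dropLast ++ [R.headD 0])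
          (List.replicate (β + 2) (S - Mm)) (R.tail, (L, t))
          - Xf x (S - Mm + E) (List.replicate (α + 2) (E - Mm))
          (List.replicate (β + 2) (S - Mm)) (R.dropLast, (L, t)) else 0) := by
      show dsum (if 2 ≤ R.length then [(R.tail, R.dropLast)] else []) _ = _
      by_cases hh : 2 ≤ R.length
      · rw [if_pos hh, if_pos hh]
        simp only [dsum, List.map_cons, List.map_nil, List.sum_cons, List.sum_nil, add_zero]
        rw [hval (S + E - Mm) ((List.replicate (α + 2) (E - Mm)).dropLast ++ [R.headD 0])
              (List.replicate (β + 2) (S - Mm)) (R.tail, (L, t)) (by simp) (by simp) ⟨by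
            show 1 ≤ R.tail.length
            simp; omega, hL, ht⟩ (by
            show R.tail.length + (L.length + tsize t) = c
            simp; omega),
          hval (S - Mm + E) (List.replicate (α + 2) (E - Mm))
              (List.replicate (β + 2) (S - Mm)) (R.dropLast, (L, t)) (by simp) (by simp) ⟨by
            show 1 ≤ R.dropLast.length
            simp; omega, hL, ht⟩ (by
            show R.dropLast.length + (L.length + tsize t) = c
            simp; omega)]
      · rw [if_neg hh, if_neg hh]
        rfl
    have w2 : dsum ((wordBlock G).pairs L) (fun s =>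
          Xf x 0 (List.replicate A.length 0) (List.replicate B.length 0) (R, (s, t)))
        = (if 2 ≤ L.length then
        Xf x (S + E - Mm) (List.replicate (α + 2) (E - Mm))
          (List.replicate (β + 2) (S - Mm)) (R, (L.tail, t))
          - Xf x (S + E - Mm) (List.replicate (α + 2) (E - Mm))
          (L.getLastD 0 :: (List.replicate (β + 2) (S - Mm)).tail) (R, (L.dropLast, t))
          else 0) := by
      show dsum (if 2 ≤ L.length then [(L.tail, L.dropLast)] else []) _ = _
      by_cases hh : 2 ≤ L.length
      · rw [if_pos hh, if_pos hh]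
        simp only [dsum, List.map_cons, List.map_nil, List.sum_cons, List.sum_nil, add_zero]
        rw [hval (S + E - Mm) (List.replicate (α + 2) (E - Mm))
              (List.replicate (β + 2) (S - Mm)) (R, (L.tail, t)) (by simp) (by simp) ⟨hR, by
            show 1 ≤ L.tail.length
            simp; omega, ht⟩ (by
            show R.length + (L.tail.length + tsize t) = c
            simp; omega),
          hval (S + E - Mm) (List.replicate (α + 2) (E - Mm))
              (L.getLastD 0 :: (List.replicate (β + 2) (S - Mm)).tail)
              (R, (L.dropLast, t)) (by simp) (by simp) ⟨hR, by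
            show 1 ≤ L.dropLast.length
            simp; omega, ht⟩ (by
            show R.length + (L.dropLast.length + tsize t) = c
            simp; omega)]
      · rw [if_neg hh, if_neg hh]
        rfl
    rw [w1, w2, ← add_assoc]
    exact q
  -- conclusion
  intro w w' l l' hok hlen hsz hsim
  cases hsim with
  | nil => simp at hlen
  | @cons a a' l1 l1' h1 h2 =>
    cases h2 with
    | nil => simp at hlen
    | @cons b b' t t' h3 h4 =>
      have ha := hok a (by simp)
      have hb := hok b (by simp)
      have r := key (a.R.length + (b.L.length + tsize t)) w w' (a.L ++ [a.m]) (a'.L ++ [a'.m])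
        (b.m :: b.R) (b'.m :: b'.R) (a.R, (b.L, t)) (a'.R, (b'.L, t'))
        (by have := ha.1; simp; omega) (by have := hb.2; simp; omega)
        (by simp [h1.1]) (by simp [h3.2])
        ⟨ha.2, hb.1, fun c hc => hok c (by simp [hc]), by simpa using hlen⟩ rfl
        ⟨h1.2, h3.1, h4⟩ (by
          simp only [tsize, List.map_cons, List.sum_cons, Slot.size] at hsz
          simp only [List.length_append, List.length_cons, List.length_nil, tsize]
          omega)
      simp only [Xf, List.dropLast_concat, List.getLastD_concat, List.headD_cons,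
        List.tail_cons] at r
      exact r

/-- The homogeneous version. -/
theorem PS_zero_of_ED {K : Type} [Field K] (C : (K → List K → List K → K) → Prop)
    (hED : ∀ (n : ℕ) (y : K → List K → List K → K), C y → EDeq y n → EDconst y n)
    (x : K → List (Slot K) → K)
    (hx : ∀ (a b c : K) (R L : List K) (t : List (Slot K)),
      C (fun w A B => x (w + a)
        (⟨A.dropLast.map (· + b), A.getLastD 0 + b, R⟩
          :: ⟨L, B.headD 0 + c, B.tail.map (· + c)⟩ :: t)))
    (k N T : ℕ) (hT : 1 ≤ T) (h : PSeq x (k + 2) N)
    (hhom : ∀ (c w : K) (l : List (Slot K)), (∀ a ∈ l, a.ok) → l.length = k + 2 →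
      tsize l = N →
      x (c * w) (l.map fun a => ⟨a.L.map (c * ·), c * a.m, a.R.map (c * ·)⟩)
        = c ^ T * x w l) :
    ∀ (w : K) (l : List (Slot K)), (∀ a ∈ l, a.ok) → l.length = k + 2 → tsize l = N →
      x w l = 0 := by
  intro w l hok hlen hsz
  have h1 := PS_of_ED C hED x hx k N h
  have h2 := hhom 0 w l hok hlen hsz
  have h3 : x (0 * w) (l.map fun a => ⟨a.L.map (0 * ·), 0 * a.m, a.R.map (0 * ·)⟩) = 0 := by
    rw [h2, zero_pow (by omega), zero_mul]
  rw [← h3]
  refine h1 _ _ _ _ hok hlen hsz ?_
  rw [List.forall₂_map_right_iff]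
  apply List.forall₂_same.mpr
  intro a _
  constructor <;> simp

end Pent
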