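import Mathlib

/-!
# Pentagon project (MP_a57f33_nt), part (c): from (ED) to the k-slot system (PS)

This file contains only definitions.

* `Slot G` : `(L, m, R)`, `L` and `R` lists, `m` a letter.
* `PSsum x s mm e slots` : left side of the system (PS).
* `PSeq x k n` : the system (PS) for `k` slots, sources of total size `n`.
* `EDsum y A B`, `EDeq y n` : the system (ED).
-/

namespace Pent

/-- A slot `(L, m, R)`; the words `L`, `R` are nonempty when the slot is `ok`. -/
structure Slot (G : Type) where
  L : List G
  m : G
  R : List G

namespace Slot

variable {G : Type}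

/-- both words are nonempty -/
def ok (a : Slot G) : Prop := 1 ≤ a.L.length ∧ 1 ≤ a.R.length

/-- number of letters of the two words -/
def size (a : Slot G) : ℕ := a.L.length + a.R.length

/-- same shape -/
def sim (a b : Slot G) : Prop := a.L.length = b.L.length ∧ a.R.length = b.R.length

variable [Zero G]

/-- lowering the left word: (remove the first letter, remove the middle letter) -/
def lowL (a : Slot G) : List (Slot G × Slot G) :=
  if 2 ≤ a.L.length then
    [(⟨a.L.tail, a.m, a.R⟩, ⟨a.L.dropLast, a.L.getLastD 0, a.R⟩)]
  else []

/-- lowering the right word: (remove the middle letter, remove the last letter) -/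
def lowR (a : Slot G) : List (Slot G × Slot G) :=
  if 2 ≤ a.R.length then
    [(⟨a.L, a.R.headD 0, a.R.tail⟩, ⟨a.L, a.m, a.R.dropLast⟩)]
  else []

end Slot

section systems

variable {G M : Type}

/-- total size of a list of slots -/
def tsize (l : List (Slot G)) : ℕ := (l.map Slot.size).sum

variable [AddCommGroup G] [AddCommGroup M]

/-- sum of the first letters -/
def sF (l : List (Slot G)) : G := (l.map fun a => a.L.headD 0).sum

/-- sum of the middle letters -/
def sM (l : List (Slot G)) : G := (l.map fun a => a.m).sum

/-- sum of the last letters -/
def sE (l : List (Slot G)) : G := (l.map fun a => a.R.getLastD 0).sum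

/-- left side of (PS): the sum over all slots of the two lowering differences;
`s`, `mm`, `e` are the values of the distinguished variable. -/
def PSsum : (G → List (Slot G) → M) → G → G → G → List (Slot G) → M
  | _, _, _, _, [] => 0
  | x, s, mm, e, a :: l =>
      (a.lowL.map fun p => x s (p.1 :: l) - x mm (p.2 :: l)).sum
      + (a.lowR.map fun p => x mm (p.1 :: l) - x e (p.2 :: l)).sum
      + PSsum (fun w t => x w (a :: t)) s mm e l

/-- The system (PS) for `k` slots; the unknowns have total size `n`. -/
def PSeq (x : G → List (Slot G) → M) (k n : ℕ) : Prop :=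
  ∀ l : List (Slot G), (∀ a ∈ l, a.ok) → l.length = k → tsize l = n + 1 →
    PSsum x (sF l) (sM l) (sE l) l = 0

/-- left side of (ED) -/
def EDsum (y : G → List G → List G → M) (A B : List G) : M :=
  (if 3 ≤ A.length then
      y (A.headD 0) A.tail B - y (A.getLastD 0 + B.headD 0) A.dropLast B else 0)
  + (if 3 ≤ B.length then
      y (A.getLastD 0 + B.headD 0) A B.tail - y (B.getLastD 0) A B.dropLast else 0)

/-- The system (ED); the unknowns have `|A| + |B| = n`, all words have length at least two. -/
def EDeq (y : G → List G → List G → M) (n : ℕ) : Prop :=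
  ∀ A B : List G, 2 ≤ A.length → 2 ≤ B.length → A.length + B.length = n + 1 →
    EDsum y A B = 0

/-- `y` depends only on the shape. -/
def EDconst (y : G → List G → List G → M) (n : ℕ) : Prop :=
  ∀ (w w' : G) (A A' B B' : List G), 2 ≤ A.length → 2 ≤ B.length →
    A.length = A'.length → B.length = B'.length → A.length + B.length = n →
    y w A B = y w' A' B'

/-- `x` depends only on the shape. -/
def PSconst (x : G → List (Slot G) → M) (k n : ℕ) : Prop :=
  ∀ (w w' : G) (l l' : List (Slot G)), (∀ a ∈ l, a.ok) → l.length = k → tsize l = n →
    List.Forall₂ Slot.sim l l' → x w l = x w' l'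

end systems

end Pent
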