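import Pool.Agent.Lib.MP_a57f33_nt.Pent.Basic

/-!
# Difference systems on products of blocks

A block is a set of configurations with a size and a list of pairs of smaller configurations of
the same shape ('lowerings').  Property `P`: a function whose lowering differences have sum zero
is a function of the shape.  It passes to products.
-/

namespace Pent

/-- A block. -/
structure Block (S : Type) where
  ok : S → Prop
  size : S → ℕ
  sim : S → S → Prop
  pairs : S → List (S × S)
  zero : S → S
  sim_refl : ∀ s, sim s s
  sim_symm : ∀ s t, sim s t → sim t s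
  sim_trans : ∀ s t u, sim s t → sim t u → sim s u
  size_sim : ∀ s t, sim s t → size s = size t
  ok_sim : ∀ s t, sim s t → ok s → ok t
  pairs_ok : ∀ s, ok s → ∀ p ∈ pairs s, ok p.1
  pairs_size : ∀ s, ∀ p ∈ pairs s, size p.1 + 1 = size s
  pairs_sim : ∀ s, ∀ p ∈ pairs s, sim p.1 p.2
  zero_sim : ∀ s, sim s (zero s)
  zero_eq : ∀ s t, sim s t → zero s = zero t
  zero_pairs : ∀ s, ∀ p ∈ pairs (zero s), p.1 = p.2

variable {M : Type} [AddCommGroup M]

/-- the sum of the lowering differences -/
def dsum {S : Type} (l : List (S × S)) (g : S → M) : M :=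
  (l.map fun p => g p.1 - g p.2).sum

theorem dsum_nil {S : Type} (g : S → M) : dsum ([] : List (S × S)) g = 0 := rfl

theorem dsum_append {S : Type} (l l' : List (S × S)) (g : S → M) :
    dsum (l ++ l') g = dsum l g + dsum l' g := by
  simp [dsum]

theorem dsum_eq_zero {S : Type} (l : List (S × S)) (g : S → M)
    (h : ∀ p ∈ l, g p.1 = g p.2) : dsum l g = 0 := by
  unfold dsum
  apply List.sum_eq_zero
  intro z hz
  rw [List.mem_map] at hz
  obtain ⟨p, hp, rfl⟩ := hz
  rw [h p hp, sub_self]

theorem dsum_map {S T : Type} (l : List (S × S)) (f : S → T) (g : T → M) :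
    dsum (l.map fun p => (f p.1, f p.2)) g = dsum l (fun s => g (f s)) := by
  simp [dsum, Function.comp_def]

theorem dsum_congr {S : Type} (l : List (S × S)) (g g' : S → M)
    (h : ∀ p ∈ l, g p.1 = g' p.1 ∧ g p.2 = g' p.2) : dsum l g = dsum l g' := by
  unfold dsum
  congr 1
  apply List.map_congr_left
  intro p hp
  rw [(h p hp).1, (h p hp).2]

/-- Property `P`. -/
def Block.P {S : Type} (B : Block S) (M : Type) [AddCommGroup M] : Prop :=
  ∀ (n : ℕ) (g : S → M),
    (∀ s, B.ok s → B.size s = n + 1 → dsum (B.pairs s) g = 0) →
    ∀ s t, B.ok s → B.size s = n → B.sim s t → g s = g t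

/-- The product of two blocks. -/
def Block.prod {S T : Type} (B : Block S) (C : Block T) : Block (S × T) where
  ok s := B.ok s.1 ∧ C.ok s.2
  size s := B.size s.1 + C.size s.2
  sim s t := B.sim s.1 t.1 ∧ C.sim s.2 t.2
  pairs s := (B.pairs s.1).map (fun p => ((p.1, s.2), (p.2, s.2)))
    ++ (C.pairs s.2).map (fun p => ((s.1, p.1), (s.1, p.2)))
  zero s := (B.zero s.1, C.zero s.2)
  sim_refl s := ⟨B.sim_refl _, C.sim_refl _⟩
  sim_symm s t h := ⟨B.sim_symm _ _ h.1, C.sim_symm _ _ h.2⟩
  sim_trans s t u h k := ⟨B.sim_trans _ _ _ h.1 k.1, C.sim_trans _ _ _ h.2 k.2⟩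
  size_sim s t h := by rw [B.size_sim _ _ h.1, C.size_sim _ _ h.2]
  ok_sim s t h k := ⟨B.ok_sim _ _ h.1 k.1, C.ok_sim _ _ h.2 k.2⟩
  pairs_ok s hs p hp := by
    rw [List.mem_append] at hp
    rcases hp with hp | hp
    · rw [List.mem_map] at hp
      obtain ⟨q, hq, rfl⟩ := hp
      exact ⟨B.pairs_ok _ hs.1 q hq, hs.2⟩
    · rw [List.mem_map] at hp
      obtain ⟨q, hq, rfl⟩ := hp
      exact ⟨hs.1, C.pairs_ok _ hs.2 q hq⟩
  pairs_size s p hp := by
    rw [List.mem_append] at hp
    rcases hp with hp | hp
    · rw [List.mem_map] at hp
      obtain ⟨q, hq, rfl⟩ := hp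
      have := B.pairs_size _ q hq
      simp only
      omega
    · rw [List.mem_map] at hp
      obtain ⟨q, hq, rfl⟩ := hp
      have := C.pairs_size _ q hq
      simp only
      omega
  pairs_sim s p hp := by
    rw [List.mem_append] at hp
    rcases hp with hp | hp
    · rw [List.mem_map] at hp
      obtain ⟨q, hq, rfl⟩ := hp
      exact ⟨B.pairs_sim _ q hq, C.sim_refl _⟩
    · rw [List.mem_map] at hp
      obtain ⟨q, hq, rfl⟩ := hp
      exact ⟨B.sim_refl _, C.pairs_sim _ q hq⟩
  zero_sim s := ⟨B.zero_sim _, C.zero_sim _⟩
  zero_eq s t h := by rw [B.zero_eq _ _ h.1, C.zero_eq _ _ h.2]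
  zero_pairs s p hp := by
    rw [List.mem_append] at hp
    rcases hp with hp | hp
    · rw [List.mem_map] at hp
      obtain ⟨q, hq, rfl⟩ := hp
      have := B.zero_pairs _ q hq
      simp only
      rw [this]
    · rw [List.mem_map] at hp
      obtain ⟨q, hq, rfl⟩ := hp
      have := C.zero_pairs _ q hq
      simp only
      rw [this]

theorem Block.prod_P {S T : Type} (B : Block S) (C : Block T) (hB : B.P M) (hC : C.P M) :
    (B.prod C).P M := by
  intro n g hg
  -- the equation for a pair
  have heq : ∀ b c, B.ok b → C.ok c → B.size b + C.size c = n + 1 →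
      dsum (B.pairs b) (fun b' => g (b', c)) + dsum (C.pairs c) (fun c' => g (b, c')) = 0 := by
    intro b c hb hc hs
    have h := hg (b, c) ⟨hb, hc⟩ hs
    have h1 : (B.prod C).pairs (b, c) =
        (B.pairs b).map (fun p => ((p.1, c), (p.2, c)))
        ++ (C.pairs c).map (fun p => ((b, p.1), (b, p.2))) := rfl
    rw [h1, dsum_append] at h
    rw [dsum_map (B.pairs b) (fun s => (s, c)) g, dsum_map (C.pairs c) (fun s => (b, s)) g] at h
    exact h
  have key : ∀ r : ℕ, ∀ b b' c c', B.ok b → C.ok c → C.size c = r → B.size b + C.size c = n →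
      B.sim b b' → C.sim c c' → g (b, c) = g (b', c') := by
    intro r
    induction r using Nat.strong_induction_on with
    | _ r ih =>
    -- independence of the first argument
    have hfirst : ∀ b b' c, B.ok b → C.ok c → C.size c = r → B.size b + C.size c = n →
        B.sim b b' → g (b, c) = g (b', c) := by
      intro b b' c hb hc hcr hs hsim
      refine hB (B.size b) (fun s => g (s, c)) ?_ b b' hb rfl hsim
      intro s hsok hss
      have h := heq s c hsok hc (by omega)
      have h2 : dsum (C.pairs c) (fun c' => g (s, c')) = 0 := by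
        apply dsum_eq_zero
        intro p hp
        have hp1 := C.pairs_size c p hp
        exact ih (C.size p.1) (by omega) s s p.1 p.2 hsok (C.pairs_ok c hc p hp) rfl (by omega)
          (B.sim_refl _) (C.pairs_sim c p hp)
      rw [h2, add_zero] at h
      exact h
    intro b b' c c' hb hc hcr hs hbb hcc
    have hb' : B.ok b' := B.ok_sim _ _ hbb hb
    have hsb : B.size b = B.size b' := B.size_sim _ _ hbb
    have hsc : C.size c = C.size c' := C.size_sim _ _ hcc
    have hc' : C.ok c' := C.ok_sim _ _ hcc hc
    have hz : B.ok (B.zero b) := B.ok_sim _ _ (B.zero_sim b) hb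
    have hzs : B.size b = B.size (B.zero b) := B.size_sim _ _ (B.zero_sim b)
    -- move to zero
    have e1 : g (b, c) = g (B.zero b, c) := hfirst b _ c hb hc hcr hs (B.zero_sim b)
    have e2 : g (b', c') = g (B.zero b, c') := by
      apply hfirst b' _ c' hb' hc' (by omega) (by omega)
      rw [B.zero_eq _ _ hbb]
      exact B.zero_sim b'
    rw [e1, e2]
    refine hC (C.size c) (fun s => g (B.zero b, s)) ?_ c c' hc rfl hcc
    intro s hsok hss
    have h := heq (B.zero b) s hz hsok (by omega)
    have h2 : dsum (B.pairs (B.zero b)) (fun b' => g (b', s)) = 0 := by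
      apply dsum_eq_zero
      intro p hp
      rw [B.zero_pairs b p hp]
    rw [h2, zero_add] at h
    exact h
  intro s t hs hsn hst
  exact key (C.size s.2) s.1 t.1 s.2 t.2 hs.1 hs.2 rfl hsn hst.1 hst.2

/-! ### The block of words -/

variable {G : Type} [AddCommGroup G]

theorem word_const {M : Type} (n : ℕ) (g : List G → M)
    (hg : ∀ l : List G, l.length = n + 1 → g l.tail = g l.dropLast) :
    ∀ l l' : List G, l.length = n → l'.length = n → g l = g l' := by
  -- move letters to zero one by one: g (a :: t) = g (t ++ [0])
  have h1 : ∀ l : List G, l.length = n → g l = g (l.tail ++ [0]) ∨ l = [] := by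
    intro l hl
    cases l with
    | nil => right; rfl
    | cons a t =>
      left
      have h := hg (a :: (t ++ [0])) (by simp at hl ⊢; omega)
      have e : (a :: (t ++ [(0 : G)])).dropLast = a :: t := by
        rw [← List.cons_append, List.dropLast_concat]
      rw [e] at h
      simpa using h.symm
  have h2 : ∀ k : ℕ, ∀ l : List G, l.length = n → k ≤ n →
      g l = g (l.drop k ++ List.replicate k 0) := by
    intro k
    induction k with
    | zero => intro l _ _; simp
    | succ k ih =>
      intro l hl hk
      rw [ih l hl (by omega)]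
      have hlen : (l.drop k ++ List.replicate k (0 : G)).length = n := by simp; omega
      rcases h1 _ hlen with h | h
      · rw [h]
        congr 1
        have hd : l.drop k ≠ [] := by
          intro h0
          have := congrArg List.length h0
          simp at this
          omega
        rw [List.tail_append_of_ne_nil hd, List.tail_drop, List.append_assoc]
        congr 1
        rw [List.replicate_succ' ]
      · have := congrArg List.length h
        rw [hlen] at this
        simp at this
        omega
  intro l l' hl hl'
  rw [h2 n l hl le_rfl, h2 n l' hl' le_rfl]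
  simp [List.drop_eq_nil_of_le (le_of_eq hl), List.drop_eq_nil_of_le (le_of_eq hl')]

/-- The block of nonempty words. -/
def wordBlock (G : Type) [AddCommGroup G] : Block (List G) where
  ok l := 1 ≤ l.length
  size l := l.length
  sim l l' := l.length = l'.length
  pairs l := if 2 ≤ l.length then [(l.tail, l.dropLast)] else []
  zero l := List.replicate l.length 0
  sim_refl _ := rfl
  sim_symm _ _ h := h.symm
  sim_trans _ _ _ h k := h.trans k
  size_sim _ _ h := h
  ok_sim _ _ h k := by rw [← h]; exact k
  pairs_ok l hl p hp := by
    split_ifs at hp with h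
    · simp only [List.mem_singleton] at hp
      subst hp
      simp
      omega
    · simp at hp
  pairs_size l p hp := by
    split_ifs at hp with h
    · simp only [List.mem_singleton] at hp
      subst hp
      simp
      omega
    · simp at hp
  pairs_sim l p hp := by
    split_ifs at hp with h
    · simp only [List.mem_singleton] at hp
      subst hp
      simp
    · simp at hp
  zero_sim l := by simp
  zero_eq l l' h := by simp [h]
  zero_pairs l p hp := by
    split_ifs at hp with h
    · simp only [List.mem_singleton] at hp
      subst hp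
      simp
    · simp at hp

theorem wordBlock_P : (wordBlock G).P M := by
  intro n g hg s t hs hsn hst
  have hs' : s.length = n := hsn
  have hst' : s.length = t.length := hst
  have hs1 : 1 ≤ s.length := hs
  refine word_const n g ?_ s t hs' (by omega)
  intro l hl
  have h := hg l (show 1 ≤ l.length by omega) hl
  have h3 : (wordBlock G).pairs l = [(l.tail, l.dropLast)] := by
    show (if 2 ≤ l.length then [(l.tail, l.dropLast)] else []) = _
    rw [if_pos (by omega)]
  rw [h3] at h
  simp only [dsum, List.map_cons, List.map_nil, List.sum_cons, List.sum_nil, add_zero] at h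
  exact sub_eq_zero.mp h

end Pent
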