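import Pool.Agent.Lib.MP_a57f33_nt.Pent.Block

/-!
# The block of one slot and the block of a list of slots
-/

namespace Pent

variable {M : Type} [AddCommGroup M] {G : Type} [AddCommGroup G]

theorem Slot.ext' {a b : Slot G} (h1 : a.L = b.L) (h2 : a.m = b.m) (h3 : a.R = b.R) : a = b := by
  cases a
  cases b
  simp only at h1 h2 h3
  subst h1 h2 h3
  rfl

/-- The block of slots. -/
def slotBlock (G : Type) [AddCommGroup G] : Block (Slot G) where
  ok := Slot.ok
  size := Slot.size
  sim := Slot.sim
  pairs a := a.lowL ++ a.lowR
  zero a := ⟨List.replicate a.L.length 0, 0, List.replicate a.R.length 0⟩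
  sim_refl _ := ⟨rfl, rfl⟩
  sim_symm _ _ h := ⟨h.1.symm, h.2.symm⟩
  sim_trans _ _ _ h k := ⟨h.1.trans k.1, h.2.trans k.2⟩
  size_sim a b h := by
    unfold Slot.size
    rw [h.1, h.2]
  ok_sim a b h k := ⟨by rw [← h.1]; exact k.1, by rw [← h.2]; exact k.2⟩
  pairs_ok a ha p hp := by
    have h1 := ha.1
    have h2 := ha.2
    rw [List.mem_append] at hp
    unfold Slot.lowL Slot.lowR at hp
    rcases hp with hp | hp
    · split_ifs at hp with h
      · simp only [List.mem_singleton] at hp
        subst hp
        refine ⟨?_, h2⟩
        simp
        omega
      · simp at hp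
    · split_ifs at hp with h
      · simp only [List.mem_singleton] at hp
        subst hp
        refine ⟨h1, ?_⟩
        simp
        omega
      · simp at hp
  pairs_size a p hp := by
    rw [List.mem_append] at hp
    unfold Slot.lowL Slot.lowR at hp
    rcases hp with hp | hp
    · split_ifs at hp with h
      · simp only [List.mem_singleton] at hp
        subst hp
        simp [Slot.size]
        omega
      · simp at hp
    · split_ifs at hp with h
      · simp only [List.mem_singleton] at hp
        subst hp
        simp [Slot.size]
        omega
      · simp at hp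
  pairs_sim a p hp := by
    rw [List.mem_append] at hp
    unfold Slot.lowL Slot.lowR at hp
    rcases hp with hp | hp
    · split_ifs at hp with h
      · simp only [List.mem_singleton] at hp
        subst hp
        constructor <;> simp
      · simp at hp
    · split_ifs at hp with h
      · simp only [List.mem_singleton] at hp
        subst hp
        constructor <;> simp
      · simp at hp
  zero_sim a := by constructor <;> simp
  zero_eq a b h := by rw [h.1, h.2]
  zero_pairs a p hp := by
    rw [List.mem_append] at hp
    unfold Slot.lowL Slot.lowR at hp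
    rcases hp with hp | hp
    · split_ifs at hp with h
      · simp only [List.mem_singleton] at hp
        subst hp
        simp only [List.length_replicate] at h
        obtain ⟨k, hk⟩ : ∃ k, a.L.length = k + 1 := ⟨a.L.length - 1, by omega⟩
        rw [hk]
        apply Slot.ext'
        · simp
        · simp [List.replicate_succ']
        · rfl
      · simp at hp
    · split_ifs at hp with h
      · simp only [List.mem_singleton] at hp
        subst hp
        simp only [List.length_replicate] at h
        obtain ⟨k, hk⟩ : ∃ k, a.R.length = k + 1 := ⟨a.R.length - 1, by omega⟩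
        rw [hk]
        apply Slot.ext'
        · rfl
        · simp [List.replicate_succ]
        · simp
      · simp at hp

theorem dropLast_getLastD (A : List G) (h : 1 ≤ A.length) : A.dropLast ++ [A.getLastD 0] = A := by
  have hne : A ≠ [] := by
    intro h0
    rw [h0] at h
    simp at h
  rw [List.getLastD_eq_getLast?, List.getLast?_eq_getLast_of_ne_nil hne]
  exact List.dropLast_append_getLast hne

theorem headD_tail (A : List G) (h : 1 ≤ A.length) : A.headD 0 :: A.tail = A := by
  cases A with
  | nil => simp at h
  | cons a t => rfl

theorem getLastD_tail (A : List G) (h : 2 ≤ A.length) : A.tail.getLastD 0 = A.getLastD 0 := by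
  cases A with
  | nil => simp at h
  | cons a t =>
    cases t with
    | nil => simp at h
    | cons b t => simp [List.getLastD_eq_getLast?]

theorem headD_dropLast (A : List G) (h : 2 ≤ A.length) : A.dropLast.headD 0 = A.headD 0 := by
  cases A with
  | nil => simp at h
  | cons a t =>
    cases t with
    | nil => simp at h
    | cons b t => simp

theorem tail_dropLast' (A : List G) : A.tail.dropLast = A.dropLast.tail := by
  cases A with
  | nil => rfl
  | cons a t =>
    cases t with
    | nil => rfl
    | cons b t => simp

theorem slotBlock_P : (slotBlock G).P M := by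
  intro n g hg
  -- the equation
  have heq : ∀ a : Slot G, a.ok → a.size = n + 1 → dsum a.lowL g + dsum a.lowR g = 0 := by
    intro a ha hs
    have h := hg a ha hs
    have h1 : (slotBlock G).pairs a = a.lowL ++ a.lowR := rfl
    rwa [h1, dsum_append] at h
  have key : ∀ r : ℕ, ∀ a b : Slot G, a.ok → a.R.length = r → a.size = n → a.sim b →
      g a = g b := by
    intro r
    induction r using Nat.strong_induction_on with
    | _ r ih =>
    -- independence of (L, m)
    have hfirst : ∀ (R A A' : List G), R.length = r → 1 ≤ r → 2 ≤ A.length →
        A.length = A'.length → A.length + r = n + 1 →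
        g ⟨A.dropLast, A.getLastD 0, R⟩ = g ⟨A'.dropLast, A'.getLastD 0, R⟩ := by
      intro R A A' hR hr hA hAA hs
      refine word_const A.length (fun A => g ⟨A.dropLast, A.getLastD 0, R⟩) ?_ A A' rfl hAA.symm
      intro W hW
      have hok : (⟨W.dropLast, W.getLastD 0, R⟩ : Slot G).ok := by
        constructor
        · simp only [List.length_dropLast]
          omega
        · simp only
          omega
      have h := heq ⟨W.dropLast, W.getLastD 0, R⟩ hok (by
        simp only [Slot.size, List.length_dropLast]
        omega)
      have h2 : dsum (Slot.lowR ⟨W.dropLast, W.getLastD 0, R⟩) g = 0 := by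
        apply dsum_eq_zero
        intro p hp
        have hp' : p ∈ (slotBlock G).pairs ⟨W.dropLast, W.getLastD 0, R⟩ :=
          List.mem_append_right _ hp
        have q1 := (slotBlock G).pairs_ok _ hok p hp'
        have q2 : p.1.size + 1 = _ := (slotBlock G).pairs_size _ p hp'
        have q3 := (slotBlock G).pairs_sim _ p hp'
        have q4 : p.1.R.length < r := by
          unfold Slot.lowR at hp
          split_ifs at hp with hh
          · simp only [List.mem_singleton] at hp
            subst hp
            simp only [List.length_tail] at hh ⊢
            omega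
          · simp at hp
        refine ih _ q4 p.1 p.2 q1 rfl ?_ q3
        have q5 : (slotBlock G).size ⟨W.dropLast, W.getLastD 0, R⟩
            = W.length - 1 + R.length := by
          show Slot.size _ = _
          simp [Slot.size]
        rw [q5] at q2
        omega
      rw [h2, add_zero] at h
      have h3 : Slot.lowL (⟨W.dropLast, W.getLastD 0, R⟩ : Slot G) =
          [(⟨W.dropLast.tail, W.getLastD 0, R⟩,
            ⟨W.dropLast.dropLast, W.dropLast.getLastD 0, R⟩)] := by
        unfold Slot.lowL
        rw [if_pos (by simp only [List.length_dropLast]; omega)]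
      rw [h3] at h
      simp only [dsum, List.map_cons, List.map_nil, List.sum_cons, List.sum_nil, add_zero] at h
      have h4 := sub_eq_zero.mp h
      show g ⟨W.tail.dropLast, W.tail.getLastD 0, R⟩
        = g ⟨W.dropLast.dropLast, W.dropLast.getLastD 0, R⟩
      rw [tail_dropLast', getLastD_tail W (by omega)]
      exact h4
    -- the same for slots
    have hfirst' : ∀ a b : Slot G, a.ok → a.R.length = r → a.size = n → a.L.length = b.L.length →
        a.R = b.R → g a = g b := by
      intro a b ha hr hs hl hR
      have h := hfirst a.R (a.L ++ [a.m]) (b.L ++ [b.m]) hr (by have := ha.2; omega)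
        (by have := ha.1; simp; omega) (by simp [hl]) (by
          have : a.L.length + a.R.length = n := hs
          simp
          omega)
      simp only [List.dropLast_concat, List.getLastD_concat] at h
      rw [hR] at h
      have ea : a = ⟨a.L, a.m, b.R⟩ := Slot.ext' rfl rfl hR
      have eb : b = ⟨b.L, b.m, b.R⟩ := rfl
      rw [ea, eb]
      exact h
    intro a b ha hr hs hab
    have hb : b.ok := (slotBlock G).ok_sim a b hab ha
    have hsb : b.size = n := by
      rw [← hs]
      exact ((slotBlock G).size_sim a b hab).symm
    have ha1 := ha.1
    have ha2 := ha.2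
    have hab1 : a.L.length = b.L.length := hab.1
    have hab2 : a.R.length = b.R.length := hab.2
    have e1 : g a = g ⟨List.replicate a.L.length 0, 0, a.R⟩ :=
      hfirst' a _ ha hr hs (by simp) rfl
    have e2 : g b = g ⟨List.replicate a.L.length 0, 0, b.R⟩ :=
      hfirst' b _ hb (by omega) hsb (by simp [hab1]) rfl
    rw [e1, e2]
    refine word_const a.R.length
      (fun R => g ⟨List.replicate a.L.length 0, 0, R⟩) ?_ a.R b.R rfl hab2.symm
    intro W hW
    have hsz : a.L.length + a.R.length = n := hs
    have hok : (⟨List.replicate a.L.length 0, 0, W⟩ : Slot G).ok := by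
      constructor
      · simp only [List.length_replicate]
        omega
      · simp only
        omega
    have h := heq ⟨List.replicate a.L.length 0, 0, W⟩ hok (by
      simp only [Slot.size, List.length_replicate]
      omega)
    have h2 : dsum (Slot.lowL ⟨List.replicate a.L.length 0, 0, W⟩) g = 0 := by
      apply dsum_eq_zero
      intro p hp
      unfold Slot.lowL at hp
      split_ifs at hp with hh
      · simp only [List.mem_singleton] at hp
        subst hp
        obtain ⟨k, hk⟩ : ∃ k, a.L.length = k + 1 := ⟨a.L.length - 1, by omega⟩
        rw [hk]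
        congr 1
        apply Slot.ext'
        · simp
        · simp [List.replicate_succ']
        · rfl
      · simp at hp
    rw [h2, zero_add] at h
    have h3 : Slot.lowR (⟨List.replicate a.L.length 0, 0, W⟩ : Slot G) =
        [(⟨List.replicate a.L.length 0, W.headD 0, W.tail⟩,
          ⟨List.replicate a.L.length 0, 0, W.dropLast⟩)] := by
      unfold Slot.lowR
      rw [if_pos (show 2 ≤ W.length by omega)]
    rw [h3] at h
    simp only [dsum, List.map_cons, List.map_nil, List.sum_cons, List.sum_nil, add_zero] at h
    have h4 := sub_eq_zero.mp h
    show g ⟨List.replicate a.L.length 0, 0, W.tail⟩ = g ⟨List.replicate a.L.length 0, 0, W.dropLast⟩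
    rw [← h4]
    apply hfirst'
    · constructor
      · simp only [List.length_replicate]
        omega
      · simp only [List.length_tail]
        omega
    · simp only [List.length_tail]
      omega
    · simp only [Slot.size, List.length_replicate, List.length_tail]
      omega
    · rfl
    · rfl
  intro s t hs hsn hst
  exact key s.R.length s t hs rfl hsn hst

/-! ### lists of slots -/

/-- the lowering pairs of a list of slots -/
def lpairs : List (Slot G) → List (List (Slot G) × List (Slot G))
  | [] => []
  | a :: l =>
      ((a.lowL ++ a.lowR).map fun p => (p.1 :: l, p.2 :: l))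
      ++ ((lpairs l).map fun p => (a :: p.1, a :: p.2))

theorem lpairs_sim : ∀ (l : List (Slot G)), ∀ p ∈ lpairs l, List.Forall₂ Slot.sim p.1 p.2 := by
  intro l
  induction l with
  | nil => intro p hp; simp [lpairs] at hp
  | cons a l ih =>
    intro p hp
    rw [lpairs, List.mem_append] at hp
    rcases hp with hp | hp
    · rw [List.mem_map] at hp
      obtain ⟨q, hq, rfl⟩ := hp
      refine List.Forall₂.cons ((slotBlock G).pairs_sim a q hq) ?_
      exact List.forall₂_same.mpr (fun x _ => ⟨rfl, rfl⟩)
    · rw [List.mem_map] at hp
      obtain ⟨q, hq, rfl⟩ := hp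
      exact List.Forall₂.cons ⟨rfl, rfl⟩ (ih q hq)

theorem lpairs_size : ∀ (l : List (Slot G)), ∀ p ∈ lpairs l, tsize p.1 + 1 = tsize l := by
  intro l
  induction l with
  | nil => intro p hp; simp [lpairs] at hp
  | cons a l ih =>
    intro p hp
    rw [lpairs, List.mem_append] at hp
    rcases hp with hp | hp
    · rw [List.mem_map] at hp
      obtain ⟨q, hq, rfl⟩ := hp
      have h : q.1.size + 1 = a.size := (slotBlock G).pairs_size a q hq
      simp only [tsize, List.map_cons, List.sum_cons]
      omega
    · rw [List.mem_map] at hp
      obtain ⟨q, hq, rfl⟩ := hp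
      have h := ih q hq
      simp only [tsize, List.map_cons, List.sum_cons] at h ⊢
      omega

theorem lpairs_ok : ∀ (l : List (Slot G)), (∀ a ∈ l, a.ok) → ∀ p ∈ lpairs l,
    (∀ a ∈ p.1, a.ok) ∧ p.1.length = l.length := by
  intro l
  induction l with
  | nil => intro _ p hp; simp [lpairs] at hp
  | cons a l ih =>
    intro hok p hp
    rw [lpairs, List.mem_append] at hp
    rcases hp with hp | hp
    · rw [List.mem_map] at hp
      obtain ⟨q, hq, rfl⟩ := hp
      have h := (slotBlock G).pairs_ok a (hok a (by simp)) q hq
      refine ⟨?_, by simp⟩
      intro b hb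
      rcases List.mem_cons.mp hb with rfl | hb
      · exact h
      · exact hok b (by simp [hb])
    · rw [List.mem_map] at hp
      obtain ⟨q, hq, rfl⟩ := hp
      have h := ih (fun b hb => hok b (by simp [hb])) q hq
      refine ⟨?_, by simp [h.2]⟩
      intro b hb
      rcases List.mem_cons.mp hb with rfl | hb
      · exact hok b (by simp)
      · exact h.1 b hb

theorem tsize_sim (l l' : List (Slot G)) (h : List.Forall₂ Slot.sim l l') :
    tsize l = tsize l' := by
  induction h with
  | nil => rfl
  | cons h1 _ ih =>
    simp only [tsize, List.map_cons, List.sum_cons] at ih ⊢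
    have := (slotBlock G).size_sim _ _ h1
    have h2 : Slot.size _ = Slot.size _ := this
    rw [ih, h2]

theorem sim_symm' (l l' : List (Slot G)) (h : List.Forall₂ Slot.sim l l') :
    List.Forall₂ Slot.sim l' l := by
  induction h with
  | nil => exact List.Forall₂.nil
  | cons h1 _ ih => exact List.Forall₂.cons ⟨h1.1.symm, h1.2.symm⟩ ih

theorem sim_trans' (l l' : List (Slot G)) (h : List.Forall₂ Slot.sim l l') :
    ∀ l'' : List (Slot G), List.Forall₂ Slot.sim l' l'' → List.Forall₂ Slot.sim l l'' := by
  induction h with
  | nil => intro l'' h; exact h
  | cons h1 _ ih =>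
    intro l'' h
    cases h with
    | cons h3 h4 => exact List.Forall₂.cons ⟨h1.1.trans h3.1, h1.2.trans h3.2⟩ (ih _ h4)

theorem ok_sim' (l l' : List (Slot G)) (h : List.Forall₂ Slot.sim l l') :
    (∀ a ∈ l, a.ok) → ∀ a ∈ l', a.ok := by
  induction h with
  | nil => intro _ a ha; simp at ha
  | cons h1 _ ih =>
    intro hok a ha
    rcases List.mem_cons.mp ha with rfl | ha
    · exact (slotBlock G).ok_sim _ _ h1 (hok _ (by simp))
    · exact ih (fun b hb => hok b (by simp [hb])) a ha

/-- The block of lists of `k` slots. -/
def listBlock (G : Type) [AddCommGroup G] (k : ℕ) : Block (List (Slot G)) where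
  ok l := (∀ a ∈ l, a.ok) ∧ l.length = k
  size := tsize
  sim := List.Forall₂ Slot.sim
  pairs := lpairs
  zero l := l.map (slotBlock G).zero
  sim_refl l := List.forall₂_same.mpr (fun x _ => ⟨rfl, rfl⟩)
  sim_symm l l' h := sim_symm' l l' h
  sim_trans l l' l'' h k := sim_trans' l l' h l'' k
  size_sim l l' h := tsize_sim l l' h
  ok_sim l l' h hk := ⟨ok_sim' l l' h hk.1, by rw [← h.length_eq]; exact hk.2⟩
  pairs_ok l hl p hp := ⟨(lpairs_ok l hl.1 p hp).1, by rw [(lpairs_ok l hl.1 p hp).2]; exact hl.2⟩
  pairs_size := lpairs_size
  pairs_sim := lpairs_sim
  zero_sim l := by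
    induction l with
    | nil => exact List.Forall₂.nil
    | cons a l ih => exact List.Forall₂.cons ((slotBlock G).zero_sim a) ih
  zero_eq l l' h := by
    induction h with
    | nil => rfl
    | cons h1 _ ih =>
      rw [List.map_cons, List.map_cons, ih, (slotBlock G).zero_eq _ _ h1]
  zero_pairs l := by
    induction l with
    | nil => intro p hp; simp [lpairs] at hp
    | cons a l ih =>
      intro p hp
      rw [List.map_cons, lpairs, List.mem_append] at hp
      rcases hp with hp | hp
      · rw [List.mem_map] at hp
        obtain ⟨q, hq, rfl⟩ := hp
        have := (slotBlock G).zero_pairs a q hq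
        simp only
        rw [this]
      · rw [List.mem_map] at hp
        obtain ⟨q, hq, rfl⟩ := hp
        have := ih q hq
        simp only
        rw [this]

theorem listBlock_P (k : ℕ) : (listBlock G k).P M := by
  induction k with
  | zero =>
    intro n g _ s t hs _ hst
    have h1 : s = [] := List.eq_nil_of_length_eq_zero hs.2
    have h2 : List.Forall₂ Slot.sim s t := hst
    rw [h1] at h2 ⊢
    rw [List.forall₂_nil_left_iff] at h2
    rw [h2]
  | succ k ih =>
    intro n g hg s t hs hsn hst
    have hP := Block.prod_P (M := M) (slotBlock G) (listBlock G k) slotBlock_P ih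
    have hst' : List.Forall₂ Slot.sim s t := hst
    cases s with
    | nil => simp [listBlock] at hs
    | cons a l =>
      cases t with
      | nil => cases hst'
      | cons b l' =>
        have h1 : Slot.sim a b ∧ List.Forall₂ Slot.sim l l' := by
          cases hst' with
          | cons h3 h4 => exact ⟨h3, h4⟩
        have hs1 : (∀ c ∈ a :: l, c.ok) ∧ (a :: l).length = k + 1 := hs
        have hsz : tsize (a :: l) = n := hsn
        refine hP n (fun q => g (q.1 :: q.2)) ?_ (a, l) (b, l') ?_ ?_ h1
        · rintro ⟨c, m⟩ hok hsize
          have hok1 : c.ok ∧ ((∀ d ∈ m, d.ok) ∧ m.length = k) := hok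
          have hsize1 : c.size + tsize m = n + 1 := hsize
          have h := hg (c :: m) (show (∀ d ∈ c :: m, d.ok) ∧ (c :: m).length = k + 1 by
            refine ⟨?_, by simp [hok1.2.2]⟩
            intro d hd
            rcases List.mem_cons.mp hd with rfl | hd
            · exact hok1.1
            · exact hok1.2.1 d hd) (show tsize (c :: m) = n + 1 by
              simp only [tsize, List.map_cons, List.sum_cons] at hsize1 ⊢
              exact hsize1)
          have e : (listBlock G (k + 1)).pairs (c :: m) = lpairs (c :: m) := rfl
          rw [e, lpairs, dsum_append] at h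
          have e2 : ((slotBlock G).prod (listBlock G k)).pairs (c, m) =
              ((c.lowL ++ c.lowR).map fun p => ((p.1, m), (p.2, m)))
              ++ ((lpairs m).map fun p => ((c, p.1), (c, p.2))) := rfl
          rw [e2, dsum_append]
          rw [dsum_map _ (fun s => (s, m)) (fun q : Slot G × List (Slot G) => g (q.1 :: q.2)),
            dsum_map _ (fun s => (c, s)) (fun q : Slot G × List (Slot G) => g (q.1 :: q.2))]
          rw [dsum_map _ (fun s => s :: m) g, dsum_map _ (fun s => c :: s) g] at h
          exact h
        · exact ⟨hs1.1 a (by simp), fun d hd => hs1.1 d (by simp [hd]), by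
            have := hs1.2
            simpa using this⟩
        · show a.size + tsize l = n
          simp only [tsize, List.map_cons, List.sum_cons] at hsz ⊢
          exact hsz

end Pent
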